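import Pool.Agent.L0h7.MS.Stm

/-! # MP_65b575_al, project MS, module EXT -/

set_option autoImplicit false

open Function

namespace Pool.Agent.L0h69.MS

open Pool.Agent.L0h7.MS

theorem fg_of_finiteIndex {G : Type*} [Group G] (K : Subgroup G) (hK : K.FiniteIndex)
    (h : Group.FG K) : Group.FG G := by
  classical
  have : Finite (G ⧸ K) := Subgroup.finite_quotient_of_finiteIndex
  obtain ⟨S, hSc, hSf⟩ := (Subgroup.fg_iff K).1 ((Group.fg_iff_subgroup_fg K).1 h)
  refine Group.fg_iff.2 ⟨S ∪ Set.range (fun q : G ⧸ K => q.out), ?_,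
    hSf.union (Set.finite_range _)⟩
  refine eq_top_iff.2 fun g _ => ?_
  obtain ⟨e, he⟩ := QuotientGroup.mk_out_eq_mul K g
  have h1 : (e : G) ∈ Subgroup.closure (S ∪ Set.range (fun q : G ⧸ K => q.out)) := by
    have h2 : (e : G) ∈ Subgroup.closure S := by rw [hSc]; exact e.2
    exact Subgroup.closure_mono Set.subset_union_left h2
  have h3 : (QuotientGroup.mk g : G ⧸ K).out ∈
      Subgroup.closure (S ∪ Set.range (fun q : G ⧸ K => q.out)) :=
    Subgroup.subset_closure (Or.inr ⟨_, rfl⟩)
  rw [he] at h3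
  have h4 := mul_mem h3 (inv_mem h1)
  simpa using h4

theorem fg_of_fp {G : Type*} [Group G] (h : Group.IsFinitelyPresented G) : Group.FG G := by
  obtain ⟨n, p, hp, -⟩ := h.out
  exact Group.fg_of_surjective hp

theorem t_EXT : S_KFN → S_RSF → S_EXT := by
  intro hKFN hRSF G _ K hKn hK hKfp
  obtain ⟨S, hSc, hSf⟩ := Group.fg_iff.1 (fg_of_finiteIndex K hK (fg_of_fp hKfp))
  -- a free group of finite rank onto `G`
  obtain ⟨n, p, hp⟩ : ∃ (n : ℕ) (p : FreeGroup (Fin n) →* G), Surjective p := by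
    have := hSf.to_subtype
    obtain ⟨n, ⟨e⟩⟩ := Finite.exists_equiv_fin S
    refine ⟨n, FreeGroup.lift (fun i => (e.symm i : G)), ?_⟩
    rw [← MonoidHom.range_eq_top, FreeGroup.range_lift_eq_closure, ← hSc]
    congr 1
    ext x
    constructor
    · rintro ⟨i, rfl⟩
      exact (e.symm i).2
    · intro hx
      exact ⟨e ⟨x, hx⟩, by simp⟩
  have hE : (K.comap p).FiniteIndex :=
    ⟨by rw [Subgroup.index_comap_of_surjective K hp]; exact hK.index_ne_zero⟩
  have hEfp := hRSF n (K.comap p) hE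
  obtain ⟨T, hTf, hTc⟩ := hKFN (K.comap p) K (fg_of_fp hEfp) hKfp (p.subgroupComap K)
    (p.subgroupComap_surjective_of_surjective K hp)
  refine ⟨n, p, hp, Subtype.val '' T, hTf.image _, le_antisymm ?_ ?_⟩
  · refine Subgroup.normalClosure_le_normal ?_
    rintro _ ⟨x, hx, rfl⟩
    have h1 : x ∈ (p.subgroupComap K).ker := by
      rw [← hTc]; exact Subgroup.subset_normalClosure hx
    have h2 := congrArg Subtype.val (MonoidHom.mem_ker.1 h1)
    exact MonoidHom.mem_ker.2 h2
  · intro x hx
    have hxE : x ∈ K.comap p := by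
      have : p x = 1 := hx
      simp [Subgroup.mem_comap, this, K.one_mem]
    have h1 : (⟨x, hxE⟩ : K.comap p) ∈ (p.subgroupComap K).ker :=
      MonoidHom.mem_ker.2 (Subtype.ext hx)
    rw [← hTc] at h1
    have h2 : Subgroup.normalClosure T ≤
        (Subgroup.normalClosure (Subtype.val '' T)).comap (K.comap p).subtype := by
      refine Subgroup.normalClosure_le_normal ?_
      intro y hy
      exact Subgroup.subset_normalClosure ⟨y, hy, rfl⟩
    exact h2 h1

end Pool.Agent.L0h69.MS
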