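import Pool.Agent.L0h7.MS.Stm

/-! # MP_65b575_al, project MS, module RSG -/

set_option autoImplicit false

open Function

namespace Pool.Agent.L0h69.MS

open Pool.Agent.L0h7.MS

/-- The normal closure of a finite set is finitely normally generated in every subgroup of finite
index which contains it. -/
theorem fng_subgroupOf {F : Type*} [Group F] (E N : Subgroup F) (hE : E.FiniteIndex) (hN : N.Normal)
    (hNE : N ≤ E) (h : N.IsFinitelyNormallyGenerated) :
    (N.subgroupOf E).IsFinitelyNormallyGenerated := by
  classical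
  obtain ⟨S, hS, rfl⟩ := h
  set N := Subgroup.normalClosure S with hNdef
  have : Finite (F ⧸ E) := Subgroup.finite_quotient_of_finiteIndex
  have hSN : ∀ s ∈ S, s ∈ N := fun s hs => Subgroup.subset_normalClosure hs
  let T : Set E := Subtype.val ⁻¹' (Set.image2 (fun (q : F ⧸ E) s => q.out⁻¹ * s * q.out) Set.univ S)
  have hT : T.Finite := by
    refine Set.Finite.preimage Subtype.val_injective.injOn ?_
    exact Set.Finite.image2 _ Set.finite_univ hS
  have : (N.subgroupOf E).Normal := inferInstance
  refine ⟨T, hT, le_antisymm ?_ ?_⟩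
  · refine Subgroup.normalClosure_le_normal ?_
    rintro ⟨x, hx⟩ ⟨q, -, s, hs, hq⟩
    have h1 : q.out⁻¹ * s * q.out ∈ N := by
      have := hN.conj_mem s (hSN s hs) q.out⁻¹
      simpa using this
    simp only at hq
    rw [hq] at h1
    exact Subgroup.mem_subgroupOf.2 h1
  · have hkey : N ≤ (Subgroup.normalClosure T).map E.subtype := by
      rw [hNdef]
      refine (Subgroup.closure_le _).2 ?_
      intro x hx
      obtain ⟨s, hs, hc⟩ := Group.mem_conjugatesOfSet_iff.1 hx
      obtain ⟨t, rfl⟩ := isConj_iff.1 hc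
      obtain ⟨e, he⟩ := QuotientGroup.mk_out_eq_mul E t⁻¹
      set q : F ⧸ E := QuotientGroup.mk t⁻¹ with hq
      -- q.out = t⁻¹ * e
      have hmem : q.out⁻¹ * s * q.out ∈ E := by
        have := hN.conj_mem s (hSN s hs) q.out⁻¹
        exact hNE (by simpa using this)
      have hTm : (⟨q.out⁻¹ * s * q.out, hmem⟩ : E) ∈ T := ⟨q, Set.mem_univ _, s, hs, rfl⟩
      have h2 := (Subgroup.normalClosure_normal (s := T)).conj_mem _
        (Subgroup.subset_normalClosure hTm) e
      refine ⟨_, h2, ?_⟩
      simp only [Subgroup.subtype_apply, Subgroup.coe_mul, Subgroup.coe_inv]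
      rw [he]
      group
    intro x hx
    obtain ⟨y, hy, hyx⟩ := hkey (Subgroup.mem_subgroupOf.1 hx)
    have : y = x := Subtype.ext hyx
    rwa [← this]

theorem t_RSG : S_RSF → S_RSG := by
  intro hRSF G _ hG H hH
  obtain ⟨n, p, hp, hk⟩ := hG.out
  have hE : (H.comap p).FiniteIndex :=
    ⟨by rw [Subgroup.index_comap_of_surjective H hp]; exact hH.index_ne_zero⟩
  have := hRSF n (H.comap p) hE
  have hle : p.ker ≤ H.comap p := by
    intro x hx
    have : p x = 1 := hx
    simp [Subgroup.mem_comap, this, H.one_mem]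
  refine Group.IsFinitelyPresented.of_surjective (p.subgroupComap H)
    (p.subgroupComap_surjective_of_surjective H hp) ?_
  have hker : (p.subgroupComap H).ker = p.ker.subgroupOf (H.comap p) := by
    ext x
    rw [MonoidHom.mem_ker, Subgroup.mem_subgroupOf, MonoidHom.mem_ker, ← Subtype.coe_inj]
    rfl
  rw [hker]
  exact fng_subgroupOf _ _ hE inferInstance hle hk

end Pool.Agent.L0h69.MS
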